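import Mathlib
import Pool.Agent.Helper575.Mc
import Pool.Agent.Helper492.PinchG

set_option autoImplicit false

namespace Pool.Agent.Results.MP_7b724e_an.LargeExponents

open Matrix
open scoped ComplexOrder

/-- Real power of a (Hermitian) complex matrix, by functional calculus. -/
noncomputable def mpow {n : ℕ} (A : Matrix (Fin n) (Fin n) ℂ) (r : ℝ) :
    Matrix (Fin n) (Fin n) ℂ :=
  cfc (fun x : ℝ => x ^ r) A

/-- The right-hand side: Tr A^q + Tr B^q + (2^q - 2) Tr (A^(1/2) B A^(1/2))^(q/2). -/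
noncomputable def Rq {n : ℕ} (q : ℝ) (A B : Matrix (Fin n) (Fin n) ℂ) : ℝ :=
  (mpow A q).trace.re + (mpow B q).trace.re +
    ((2 : ℝ) ^ q - 2) * (mpow (mpow A (1 / 2) * B * mpow A (1 / 2)) (q / 2)).trace.re

/-- Q2 for all `q > 3`. -/
theorem result (q : ℝ) (hq : 3 < q) (n : ℕ) (A B : Matrix (Fin n) (Fin n) ℂ)
    (hA : A.PosDef) (hB : B.PosDef) :
    Rq q A B ≤ (mpow (A + B) q).trace.re := by
  have hAB : (A + B).PosDef := hA.add hB
  have hM := Pool.Agent.Helper575.Mc.conj_posDef (Pool.Agent.Helper575.Mc.pw_posDef hA (1 / 2)) hB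
  have h := Pool.Agent.Helper492.Pinch.main_eig hA hB hq hAB hM
  rw [← Pool.Agent.Helper575.Tr.trace_cfc (fun x : ℝ => x ^ q) hA.1,
    ← Pool.Agent.Helper575.Tr.trace_cfc (fun x : ℝ => x ^ q) hB.1,
    ← Pool.Agent.Helper575.Tr.trace_cfc (fun x : ℝ => x ^ q) hAB.1,
    ← Pool.Agent.Helper575.Tr.trace_cfc (fun x : ℝ => x ^ (q / 2)) hM.1] at h
  unfold Pool.Agent.Helper575.Mc.pw at h
  unfold Rq mpow
  linarith

end Pool.Agent.Results.MP_7b724e_an.LargeExponents
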