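import Mathlib
import Pool.Agent.Helper575.Mc

set_option autoImplicit false

namespace Pool.Agent.Results.MP_7b724e_an.NegativeExponents

open Matrix
open scoped ComplexOrder

/-- Real power of a (Hermitian) complex matrix, by functional calculus. -/
noncomputable def mpow {n : ℕ} (A : Matrix (Fin n) (Fin n) ℂ) (r : ℝ) :
    Matrix (Fin n) (Fin n) ℂ :=
  cfc (fun x : ℝ => x ^ r) A

/-- The right-hand side: Tr A^q + Tr B^q + (2^q - 2) Tr (A^(1/2) B A^(1/2))^(q/2). -/
noncomputable def Rq {n : ℕ} (q : ℝ) (A B : Matrix (Fin n) (Fin n) ℂ) : ℝ :=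
  (mpow A q).trace.re + (mpow B q).trace.re +
    ((2 : ℝ) ^ q - 2) * (mpow (mpow A (1 / 2) * B * mpow A (1 / 2)) (q / 2)).trace.re

/-- Q1 for all q in (-2, 0). -/
theorem result (q : ℝ) (hq2 : -2 < q) (hq0 : q < 0) (n : ℕ) (A B : Matrix (Fin n) (Fin n) ℂ)
    (hA : A.PosDef) (hB : B.PosDef) :
    (mpow (A + B) q).trace.re ≤ Rq q A B := by
  have h1 := Pool.Agent.Helper575.Mc.amgm hA hB hq0
  have h2 := Pool.Agent.Helper575.Mc.hoelder hA hB hq2 hq0
  unfold Pool.Agent.Helper575.Mc.pw at h1 h2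
  unfold Rq mpow
  linarith

end Pool.Agent.Results.MP_7b724e_an.NegativeExponents
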